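import Pool.Agent.H14R3.Aug.Stmts

set_option autoImplicit false

open scoped ENNReal InnerProductSpace

namespace Pool.Agent.H14R3.Aug

theorem globSol_of (hDim : Dim) (hPot : GradPot) (hOp : GradOp) : GlobSol := by
  intro n k hkn x S hx
  obtain ⟨T, hT, hTf⟩ := hOp n k x S hx
  obtain ⟨p, hp, hTp⟩ := hDim (G n) n k hkn T hT
  obtain ⟨d, hd, hd1, hgrad⟩ := hPot n p hp
  refine ⟨d, ⟨hd1, fun i h => ?_⟩, hd⟩
  have h1 := hTf (Pot d) p hgrad i h
  unfold eqn
  rw [← h1, hTp]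
  rfl

theorem asmPot_cons {n : ℕ} (d : G n → ℂ) (g : G n) (hg : g ≠ 1) :
    ∃ g' : G n, Pot d g = d g + Pot d g' := by
  have h1 : g.toWord ≠ [] := by
    intro h
    exact hg (FreeGroup.toWord_eq_nil_iff.1 h)
  obtain ⟨t, w, htw⟩ := List.exists_cons_of_ne_nil h1
  refine ⟨FreeGroup.mk w, ?_⟩
  have hred : FreeGroup.IsReduced (t :: w) := by
    rw [← htw]; exact FreeGroup.isReduced_toWord
  have hw : (FreeGroup.mk w).toWord = w := by
    rw [FreeGroup.toWord_mk]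
    exact FreeGroup.IsReduced.reduce_eq (List.IsChain.tail hred)
  unfold Pot
  rw [hw, htw]
  simp only [List.tails_cons, List.map_cons, List.sum_cons]
  rw [← htw, FreeGroup.mk_toWord]

theorem bdd_of (hGlob : GlobSol) (hExist : Exist) (hDecay : Decay) (hBound : Bound) : Bdd := by
  intro n k hkn x S hx
  obtain ⟨d0, hd0, hne⟩ := hGlob n k hkn x S hx
  obtain ⟨g0, hg0⟩ : ∃ g0, d0 g0 ≠ 0 := by
    by_contra h
    push Not at h
    exact hne (lp.ext (funext h))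
  obtain ⟨d, hd, hd', hdg⟩ := hExist n k x S d0 hd0 g0
  obtain ⟨L, hL⟩ := hDecay n k x S (len g0) hx d hd hd'
  obtain ⟨C, hC⟩ := hBound n d (len g0) L hL
  have h1 : g0 ≠ 1 := by
    rintro rfl
    exact hg0 hd0.1
  obtain ⟨g', hg'⟩ := asmPot_cons d g0 h1
  refine ⟨Pot d, C, hC, ⟨g0, g', ?_⟩, fun i h => hd.2 i h⟩
  rw [hg', hdg]
  simpa using hg0

theorem final_of (hA : TreeA) (hB : TreeB) (hTr : Trace) (hRes : Resolv) (hInj : InjLim)
    (hDim : TaskDim) (hPot : GradPot) (hOp : GradOp) (hRS : TaskRestrSol) (hES : TaskExtSol)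
    (hR : TaskRestr) (hFD : FinDim) (hTail : Tail) (hDec : TaskDecay) (hBd : Bound)
    (hEx : Exist) (hFin : TaskFinal) : Final :=
  hFin (bdd_of (globSol_of (hDim hTr hRes hInj) hPot hOp) hEx
    (hDec hB (hR (hRS hA hB) (hES hA hB)) hFD hTail) hBd)

end Pool.Agent.H14R3.Aug
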