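import Mathlib

set_option autoImplicit false

namespace Pool.Agent.H14R3.Aug

theorem redSub {α : Type*} {L₁ L₂ : List (α × Bool)} (h : FreeGroup.IsReduced L₂)
    (h2 : L₁ <:+: L₂) : FreeGroup.IsReduced L₁ := by
  obtain ⟨s, t, rfl⟩ := h2
  unfold FreeGroup.IsReduced at h ⊢
  exact (List.isChain_append.1 (List.isChain_append.1 h).1).2.1

end Pool.Agent.H14R3.Aug
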