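import Mathlib

/-!
Definitions and intermediate statements for the proof that fewer than n finitely supported
elements never generate the augmentation ideal of the free group of rank n.
-/

set_option autoImplicit false

open scoped ENNReal InnerProductSpace

namespace Pool.Agent.H14R3.Aug

noncomputable section

/-- The free group of rank n. -/
abbrev G (n : ℕ) := FreeGroup (Fin n)

/-- Square summable functions. -/
abbrev H (ι : Type) := lp (fun _ : ι => ℂ) 2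

/-- Word length. -/
def len {n : ℕ} (g : G n) : ℕ := g.toWord.length

/-- The reduced word of g ends with the letter t. -/
def Ends {n : ℕ} (t : Fin n × Bool) (g : G n) : Prop := g.toWord.getLast? = some t

/-- Sum of d over all suffixes of the reduced word of g (including the empty word and g). -/
def Pot {n : ℕ} (d : G n → ℂ) (g : G n) : ℂ :=
  ((g.toWord.tails).map fun w => d (FreeGroup.mk w)).sum

/-- The i-th equation at h. -/
def eqn {n k : ℕ} (x : Fin k → G n → ℂ) (S : Finset (G n)) (i : Fin k) (h : G n)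
    (d : G n → ℂ) : ℂ := ∑ u ∈ S, x i u * Pot d (u * h)

theorem Pot_add {n : ℕ} (d e : G n → ℂ) (g : G n) : Pot (d + e) g = Pot d g + Pot e g := by
  unfold Pot
  simp only [Pi.add_apply]
  exact List.sum_map_add

theorem Pot_smul {n : ℕ} (c : ℂ) (d : G n → ℂ) (g : G n) : Pot (c • d) g = c * Pot d g := by
  unfold Pot
  simp only [Pi.smul_apply, smul_eq_mul]
  exact List.sum_map_mul_left ..

theorem Pot_zero {n : ℕ} (g : G n) : Pot (0 : G n → ℂ) g = 0 := by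
  unfold Pot
  simp

theorem eqn_add {n k : ℕ} (x : Fin k → G n → ℂ) (S : Finset (G n)) (i : Fin k) (h : G n)
    (d e : G n → ℂ) : eqn x S i h (d + e) = eqn x S i h d + eqn x S i h e := by
  unfold eqn
  simp only [Pot_add, mul_add, Finset.sum_add_distrib]

theorem eqn_smul {n k : ℕ} (x : Fin k → G n → ℂ) (S : Finset (G n)) (i : Fin k) (h : G n)
    (c : ℂ) (d : G n → ℂ) : eqn x S i h (c • d) = c * eqn x S i h d := by
  unfold eqn
  simp only [Pot_smul, Finset.mul_sum]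
  refine Finset.sum_congr rfl fun _ _ => ?_
  ring

theorem eqn_zero {n k : ℕ} (x : Fin k → G n → ℂ) (S : Finset (G n)) (i : Fin k) (h : G n) :
    eqn x S i h (0 : G n → ℂ) = 0 := by
  unfold eqn
  simp [Pot_zero]

/-- Global solutions. -/
def Sglob {n k : ℕ} (x : Fin k → G n → ℂ) (S : Finset (G n)) : Submodule ℂ (H (G n)) where
  carrier := {d | d 1 = 0 ∧ ∀ i h, eqn x S i h d = 0}
  zero_mem' := ⟨rfl, fun i h => eqn_zero x S i h⟩
  add_mem' := by
    rintro a b ⟨ha, ha'⟩ ⟨hb, hb'⟩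
    refine ⟨by simp [ha, hb], fun i h => ?_⟩
    rw [lp.coeFn_add, eqn_add, ha', hb', add_zero]
  smul_mem' := by
    rintro c a ⟨ha, ha'⟩
    refine ⟨by simp [ha], fun i h => ?_⟩
    rw [lp.coeFn_smul, eqn_smul, ha', mul_zero]

/-- Global solutions vanishing on the ball of radius N. -/
def Kglob {n k : ℕ} (x : Fin k → G n → ℂ) (S : Finset (G n)) (N : ℕ) :
    Submodule ℂ (H (G n)) where
  carrier := {d | d ∈ Sglob x S ∧ ∀ g, len g ≤ N → d g = 0}
  zero_mem' := ⟨Submodule.zero_mem _, fun _ _ => rfl⟩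
  add_mem' := by
    rintro a b ⟨ha, ha'⟩ ⟨hb, hb'⟩
    exact ⟨Submodule.add_mem _ ha hb, fun g hg => by simp [ha' g hg, hb' g hg]⟩
  smul_mem' := by
    rintro c a ⟨ha, ha'⟩
    exact ⟨Submodule.smul_mem _ _ ha, fun g hg => by simp [ha' g hg]⟩

/-- Solutions on the cone of words ending with t. -/
def Scone {n k : ℕ} (x : Fin k → G n → ℂ) (S : Finset (G n)) (R : ℕ) (t : Fin n × Bool) :
    Submodule ℂ (H (G n)) where
  carrier := {d | (∀ g, ¬ (Ends t g ∧ 2 ≤ len g) → d g = 0) ∧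
    ∀ i h, Ends t h → R + 1 ≤ len h → eqn x S i h d = 0}
  zero_mem' := ⟨fun _ _ => rfl, fun i h _ _ => eqn_zero x S i h⟩
  add_mem' := by
    rintro a b ⟨ha, ha'⟩ ⟨hb, hb'⟩
    refine ⟨fun g hg => by simp [ha g hg, hb g hg], fun i h h1 h2 => ?_⟩
    rw [lp.coeFn_add, eqn_add, ha' i h h1 h2, hb' i h h1 h2, add_zero]
  smul_mem' := by
    rintro c a ⟨ha, ha'⟩
    refine ⟨fun g hg => by simp [ha g hg], fun i h h1 h2 => ?_⟩
    rw [lp.coeFn_smul, eqn_smul, ha' i h h1 h2, mul_zero]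

/-- Solutions on the cone vanishing on the ball of radius 2R+2. -/
def Kcone {n k : ℕ} (x : Fin k → G n → ℂ) (S : Finset (G n)) (R : ℕ) (t : Fin n × Bool) :
    Submodule ℂ (H (G n)) where
  carrier := {d | d ∈ Scone x S R t ∧ ∀ g, len g ≤ 2 * R + 2 → d g = 0}
  zero_mem' := ⟨Submodule.zero_mem _, fun _ _ => rfl⟩
  add_mem' := by
    rintro a b ⟨ha, ha'⟩ ⟨hb, hb'⟩
    exact ⟨Submodule.add_mem _ ha hb, fun g hg => by simp [ha' g hg, hb' g hg]⟩
  smul_mem' := by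
    rintro c a ⟨ha, ha'⟩
    exact ⟨Submodule.smul_mem _ _ ha, fun g hg => by simp [ha' g hg]⟩

/-- Minimal solutions on the cone. -/
def Mcone {n k : ℕ} (x : Fin k → G n → ℂ) (S : Finset (G n)) (R : ℕ) (t : Fin n × Bool) :
    Submodule ℂ (H (G n)) := Scone x S R t ⊓ (Kcone x S R t)ᗮ

/-- Energy of d strictly above w. -/
def En {n : ℕ} (d : H (G n)) (w : G n) : ℝ :=
  ∑' g, Set.indicator {g : G n | w.toWord <:+ g.toWord ∧ g ≠ w} (fun g => ‖d g‖ ^ 2) g

/-- Right translation equivariance for operators between square summable functions on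
index sets times a group. -/
def Equivariant {Γ I J : Type} [Group Γ] (T : H (I × Γ) →L[ℂ] H (J × Γ)) : Prop :=
  ∀ (h : Γ) (f f' : H (I × Γ)), (∀ i g, f' (i, g) = f (i, g * h)) →
    ∀ j g, T f' (j, g) = T f (j, g * h)

/-! ### Statements -/

/-- Multiplication on the left by u changes at most the first len u letters. -/
def TreeA : Prop := ∀ (n : ℕ) (u g : G n), g.toWord.drop (len u) <:+ (u * g).toWord

/-- No cancellation when g ends with t and t v is reduced. -/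
def TreeB : Prop := ∀ (n : ℕ) (g v : G n) (t : Fin n × Bool), Ends t g →
  (FreeGroup.mk [t] * v).toWord = t :: v.toWord → (g * v).toWord = g.toWord ++ v.toWord

/-- Trace identity. -/
def Trace : Prop := ∀ (Γ : Type) [Group Γ] [DecidableEq Γ] (n k : ℕ)
  (T : H (Fin n × Γ) →L[ℂ] H (Fin k × Γ)) (U : H (Fin k × Γ) →L[ℂ] H (Fin n × Γ)),
  Equivariant T → Equivariant U →
  ∑ l : Fin n, (U (T (lp.single 2 (l, (1 : Γ)) 1))) (l, 1) =
    ∑ i : Fin k, (T (U (lp.single 2 (i, (1 : Γ)) 1))) (i, 1)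

/-- Resolvents. -/
def Resolv : Prop := ∀ (Γ : Type) [Group Γ] (n k : ℕ)
  (T : H (Fin n × Γ) →L[ℂ] H (Fin k × Γ)), Equivariant T → ∀ ε : ℝ, 0 < ε →
  ∃ (Ts : H (Fin k × Γ) →L[ℂ] H (Fin n × Γ)) (A : H (Fin n × Γ) →L[ℂ] H (Fin n × Γ))
    (B : H (Fin k × Γ) →L[ℂ] H (Fin k × Γ)),
    (∀ u v, ⟪Ts u, v⟫_ℂ = ⟪u, T v⟫_ℂ) ∧ Equivariant Ts ∧ Equivariant A ∧ Equivariant B ∧
    (∀ v, Ts (T (A v)) + (ε : ℂ) • A v = v) ∧ (∀ v, A (Ts (T v)) + (ε : ℂ) • A v = v) ∧
    (∀ v, T (Ts (B v)) + (ε : ℂ) • B v = v) ∧ (∀ v, B (T (Ts v)) + (ε : ℂ) • B v = v)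

/-- If T is injective then ε (T*T+ε)⁻¹ e tends to 0. -/
def InjLim : Prop := ∀ (I J : Type) (T : H I →L[ℂ] H J) (Ts : H J →L[ℂ] H I),
  (∀ u v, ⟪Ts u, v⟫_ℂ = ⟪u, T v⟫_ℂ) → (∀ v, T v = 0 → v = 0) → ∀ (e : H I) (c : ℝ), 0 < c →
  ∃ ε0 : ℝ, 0 < ε0 ∧ ∀ ε : ℝ, 0 < ε → ε ≤ ε0 → ∀ y : H I, Ts (T y) + (ε : ℂ) • y = e →
    ε * ‖y‖ ≤ c

/-- Dimension: an equivariant operator to fewer copies has a kernel. -/
def Dim : Prop := ∀ (Γ : Type) [Group Γ] (n k : ℕ), k < n →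
  ∀ T : H (Fin n × Γ) →L[ℂ] H (Fin k × Γ), Equivariant T → ∃ p, p ≠ 0 ∧ T p = 0

def TaskDim : Prop := Trace → Resolv → InjLim → Dim

/-- Every square summable edge function is the gradient of the potential of a square summable
function. -/
def GradPot : Prop := ∀ (n : ℕ) (p : H (Fin n × G n)), p ≠ 0 → ∃ d : H (G n), d ≠ 0 ∧ d 1 = 0 ∧
  ∀ l g, Pot d (FreeGroup.of l * g) - Pot d g = p (l, g)

/-- The operator expressing the equations through the gradient. -/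
def GradOp : Prop := ∀ (n k : ℕ) (x : Fin k → G n → ℂ) (S : Finset (G n)),
  (∀ i, ∑ u ∈ S, x i u = 0) → ∃ T : H (Fin n × G n) →L[ℂ] H (Fin k × G n), Equivariant T ∧
    ∀ (f : G n → ℂ) (p : H (Fin n × G n)), (∀ l g, f (FreeGroup.of l * g) - f g = p (l, g)) →
      ∀ i h, T p (i, h) = ∑ u ∈ S, x i u * f (u * h)

/-- Existence of a nonzero global solution. -/
def GlobSol : Prop := ∀ (n k : ℕ), k < n → ∀ (x : Fin k → G n → ℂ) (S : Finset (G n)),
  (∀ i, ∑ u ∈ S, x i u = 0) → ∃ d ∈ Sglob x S, d ≠ 0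

/-- Restriction of a solution to a cone is a cone solution. -/
def RestrSol : Prop := ∀ (n k : ℕ) (x : Fin k → G n → ℂ) (S : Finset (G n)) (R : ℕ),
  (∀ i, ∑ u ∈ S, x i u = 0) → (∀ u ∈ S, len u ≤ R) → ∀ d ∈ Sglob x S,
  ∀ (t : Fin n × Bool) (v : G n), (FreeGroup.mk [t] * v).toWord = t :: v.toWord →
  ∀ e : H (G n), (∀ g, Ends t g → 2 ≤ len g → e g = d (g * v)) →
    (∀ g, ¬ (Ends t g ∧ 2 ≤ len g) → e g = 0) → e ∈ Scone x S R t

def TaskRestrSol : Prop := TreeA → TreeB → RestrSol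

/-- Extension by zero of a cone solution with vanishing collar is a global solution. -/
def ExtSol : Prop := ∀ (n k : ℕ) (x : Fin k → G n → ℂ) (S : Finset (G n)) (R N : ℕ),
  (∀ u ∈ S, len u ≤ R) → ∀ (t : Fin n × Bool) (v : G n),
  (FreeGroup.mk [t] * v).toWord = t :: v.toWord → N ≤ len v → ∀ e ∈ Kcone x S R t,
  ∀ f : H (G n), (∀ g, Ends t g → f (g * v) = e g) →
    (∀ g, ¬ Ends t (g * v⁻¹) → f g = 0) → f ∈ Kglob x S N

def TaskExtSol : Prop := TreeA → TreeB → ExtSol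

/-- Restriction of a minimal solution to a cone is a minimal cone solution. -/
def Restr : Prop := ∀ (n k : ℕ) (x : Fin k → G n → ℂ) (S : Finset (G n)) (R N : ℕ),
  (∀ i, ∑ u ∈ S, x i u = 0) → (∀ u ∈ S, len u ≤ R) → ∀ d ∈ Sglob x S, d ∈ (Kglob x S N)ᗮ →
  ∀ (t : Fin n × Bool) (v : G n), (FreeGroup.mk [t] * v).toWord = t :: v.toWord → N ≤ len v →
  ∀ e : H (G n), (∀ g, Ends t g → 2 ≤ len g → e g = d (g * v)) →
    (∀ g, ¬ (Ends t g ∧ 2 ≤ len g) → e g = 0) → e ∈ Mcone x S R t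

def TaskRestr : Prop := RestrSol → ExtSol → Restr

/-- Minimal cone solutions form a finite-dimensional space. -/
def FinDim : Prop := ∀ (n k : ℕ) (x : Fin k → G n → ℂ) (S : Finset (G n)) (R : ℕ)
  (t : Fin n × Bool), FiniteDimensional ℂ (Mcone x S R t)

/-- Uniform tails on a finite-dimensional space. -/
def Tail : Prop := ∀ (ι : Type) (ν : ι → ℕ) (M : Submodule ℂ (H ι)), FiniteDimensional ℂ M →
  ∃ L : ℕ, ∀ e ∈ M, ∑' g, Set.indicator {g | L ≤ ν g} (fun g => ‖e g‖ ^ 2) g ≤ (1/2) * ‖e‖ ^ 2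

/-- Energy decay of minimal solutions. -/
def Decay : Prop := ∀ (n k : ℕ) (x : Fin k → G n → ℂ) (S : Finset (G n)) (N : ℕ),
  (∀ i, ∑ u ∈ S, x i u = 0) → ∀ d ∈ Sglob x S, d ∈ (Kglob x S N)ᗮ →
  ∃ L : ℕ, ∀ w w' : G n, N + 1 ≤ len w → w.toWord <:+ w'.toWord → len w + L ≤ len w' →
    En d w' ≤ (1/2) * En d w

def TaskDecay : Prop := TreeB → Restr → FinDim → Tail → Decay

/-- Energy decay implies that the potential is bounded. -/
def Bound : Prop := ∀ (n : ℕ) (d : H (G n)) (N L : ℕ),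
  (∀ w w' : G n, N + 1 ≤ len w → w.toWord <:+ w'.toWord → len w + L ≤ len w' →
    En d w' ≤ (1/2) * En d w) → ∃ C : ℝ, ∀ g, ‖Pot d g‖ ≤ C

/-- Replacing a global solution by a minimal one. -/
def Exist : Prop := ∀ (n k : ℕ) (x : Fin k → G n → ℂ) (S : Finset (G n)) (d0 : H (G n)),
  d0 ∈ Sglob x S → ∀ g0 : G n, ∃ d ∈ Sglob x S, d ∈ (Kglob x S (len g0))ᗮ ∧ d g0 = d0 g0

/-- A bounded nonconstant solution. -/
def Bdd : Prop := ∀ (n k : ℕ), k < n → ∀ (x : Fin k → G n → ℂ) (S : Finset (G n)),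
  (∀ i, ∑ u ∈ S, x i u = 0) → ∃ (φ : G n → ℂ) (C : ℝ), (∀ g, ‖φ g‖ ≤ C) ∧
    (∃ g g', φ g ≠ φ g') ∧ ∀ i h, ∑ u ∈ S, x i u * φ (u * h) = 0

/-- Membership in the augmentation ideal of the algebra of absolutely summable functions on the
free group on n generators: absolutely summable with sum zero. -/
def InI0 {n : ℕ} (f : FreeGroup (Fin n) → ℂ) : Prop :=
  Summable (fun g => ‖f g‖) ∧ ∑' g, f g = 0

/-- The convolution product. -/
def convProd {n : ℕ} (b c : FreeGroup (Fin n) → ℂ) : FreeGroup (Fin n) → ℂ :=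
  fun x => ∑' g, b g * c (g⁻¹ * x)

/-- The closed right ideal generated by x 1, ..., x k. -/
def closedRightIdeal {n k : ℕ} (x : Fin k → FreeGroup (Fin n) → ℂ) :
    Set (FreeGroup (Fin n) → ℂ) :=
  {g | Summable (fun s => ‖g s‖) ∧ ∀ ε : ℝ, 0 < ε → ∃ f : Fin k → FreeGroup (Fin n) → ℂ,
    (∀ j, Summable fun s => ‖f j s‖) ∧ ∑' s, ‖g s - ∑ j, convProd (x j) (f j) s‖ < ε}

/-- The final statement. -/
def Final : Prop := ∀ (n k : ℕ), k < n → ∀ x : Fin k → FreeGroup (Fin n) → ℂ,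
  (∀ j, InI0 (x j)) → (∀ j, (Function.support (x j)).Finite) →
  closedRightIdeal x ≠ {g | InI0 g}

def TaskFinal : Prop := Bdd → Final

end

end Pool.Agent.H14R3.Aug
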