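import Pool.Agent.H14R3.Aug.Stmts
import Pool.Agent.H14R3.Aug.Red

/-! Project AUG, task TaskExtSol. -/

set_option autoImplicit false

namespace Pool.Agent.H14R3.Aug

namespace ExtSolP

open FreeGroup

variable {n : ℕ}

theorem toWord_suffix {w : List (Fin n × Bool)} {g : G n} (h : w <:+ g.toWord) :
    (FreeGroup.mk w).toWord = w := by
  have h1 : IsReduced w := Pool.Agent.H14R3.Aug.redSub (isReduced_toWord (x := g)) h.isInfix
  rw [toWord_mk, h1.reduce_eq]

theorem toWord_prefix {w : List (Fin n × Bool)} {g : G n} (h : w <+: g.toWord) :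
    (FreeGroup.mk w).toWord = w := by
  have h1 : IsReduced w := Pool.Agent.H14R3.Aug.redSub (isReduced_toWord (x := g)) h.isInfix
  rw [toWord_mk, h1.reduce_eq]

theorem getLast_suffix {w l : List (Fin n × Bool)} (h : w <:+ l) (hw : w ≠ []) :
    w.getLast? = l.getLast? := by
  obtain ⟨p, hp⟩ := h
  rw [← hp, List.getLast?_append_of_ne_nil p hw]

theorem ends_suffix {w : List (Fin n × Bool)} {g : G n} {t : Fin n × Bool} (h : w <:+ g.toWord)
    (hw : w ≠ []) (hg : Ends t g) : Ends t (FreeGroup.mk w) := by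
  unfold Ends at hg ⊢
  rw [toWord_suffix h, getLast_suffix h hw, hg]

theorem len_of_ends {t : Fin n × Bool} {g : G n} (h : Ends t g) : 1 ≤ len g := by
  unfold Ends at h
  unfold len
  rcases hl : g.toWord with _ | ⟨a, l⟩
  · rw [hl] at h; simp at h
  · simp

theorem len_mk_le (w : List (Fin n × Bool)) : len (FreeGroup.mk w : G n) ≤ w.length :=
  norm_mk_le

theorem len_inv (u : G n) : len u⁻¹ = len u := norm_inv_eq

section

variable {t : Fin n × Bool} {v : G n} (hB : TreeB)
  (hv : (FreeGroup.mk [t] * v).toWord = t :: v.toWord)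

include hB hv

theorem len_mul_v {g : G n} (hg : Ends t g) : len (g * v) = len g + len v := by
  unfold len
  rw [hB n g v t hg hv, List.length_append]

theorem vanish {f : G n → ℂ} (hf0 : ∀ g, ¬ Ends t (g * v⁻¹) → f g = 0) {g : G n}
    (hg : len g ≤ len v) : f g = 0 := by
  apply hf0
  intro hE
  have h1 := len_mul_v hB hv hE
  rw [inv_mul_cancel_right] at h1
  have h2 := len_of_ends hE
  omega

theorem pot_cone {e f : G n → ℂ} (he1 : e 1 = 0) (hf : ∀ g, Ends t g → f (g * v) = e g)
    (hf0 : ∀ g, ¬ Ends t (g * v⁻¹) → f g = 0) {g : G n} (hg : Ends t g) :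
    Pot f (g * v) = Pot e g := by
  unfold Pot
  rw [hB n g v t hg hv, List.tails_append, List.map_append, List.sum_append, List.map_map]
  have h2 : ((v.toWord.tails.tail).map fun w => f (FreeGroup.mk w)).sum = 0 := by
    apply List.sum_eq_zero
    intro x hx
    obtain ⟨w, hw, rfl⟩ := List.mem_map.1 hx
    have h3 : w <:+ v.toWord := (List.mem_tails _ _).1 (List.mem_of_mem_tail hw)
    exact vanish hB hv hf0 ((len_mk_le w).trans h3.length_le)
  rw [h2, add_zero]
  congr 1
  apply List.map_congr_left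
  intro w hw
  have h3 : w <:+ g.toWord := (List.mem_tails _ _).1 hw
  show f (FreeGroup.mk (w ++ v.toWord)) = e (FreeGroup.mk w)
  have h4 : (FreeGroup.mk (w ++ v.toWord) : G n) = FreeGroup.mk w * v := by
    rw [← FreeGroup.mul_mk, FreeGroup.mk_toWord]
  by_cases hw0 : w = []
  · subst hw0
    have h5 : (FreeGroup.mk [] : G n) = 1 := rfl
    rw [h4, h5, he1, one_mul]
    exact vanish hB hv hf0 le_rfl
  · rw [h4, hf _ (ends_suffix h3 hw0 hg)]

theorem pot_out {f : G n → ℂ} (hf0 : ∀ g, ¬ Ends t (g * v⁻¹) → f g = 0) {g : G n}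
    (hg : ¬ Ends t (g * v⁻¹)) : Pot f g = 0 := by
  unfold Pot
  apply List.sum_eq_zero
  intro x hx
  obtain ⟨w, hw, rfl⟩ := List.mem_map.1 hx
  have h3 : w <:+ g.toWord := (List.mem_tails _ _).1 hw
  apply hf0
  intro hE
  apply hg
  have h4 := hB n _ v t hE hv
  rw [inv_mul_cancel_right, toWord_suffix h3] at h4
  obtain ⟨p, hp⟩ := h3
  rw [h4, ← List.append_assoc] at hp
  have h5 : g * v⁻¹ = FreeGroup.mk (p ++ (FreeGroup.mk w * v⁻¹).toWord) := by
    rw [mul_inv_eq_iff_eq_mul]
    rw [← FreeGroup.mk_toWord (x := g), ← hp, ← FreeGroup.mul_mk, FreeGroup.mk_toWord]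
  have h6 : (g * v⁻¹).toWord = p ++ (FreeGroup.mk w * v⁻¹).toWord := by
    rw [h5]
    exact toWord_prefix (g := g) ⟨v.toWord, hp⟩
  unfold Ends at hE ⊢
  have hne : (FreeGroup.mk w * v⁻¹).toWord ≠ [] := by
    intro h; rw [h] at hE; simp at hE
  rw [h6, List.getLast?_append_of_ne_nil p hne, hE]

end

/-- multiplication by a short element preserves the last letter of a long word -/
theorem ends_mul (hA : TreeA) {t : Fin n × Bool} {u g : G n} (hg : Ends t g)
    (h : len u + 1 ≤ len g) : Ends t (u * g) ∧ len g ≤ len u + len (u * g) := by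
  have h1 := hA n u g
  have hne : g.toWord.drop (len u) ≠ [] := by
    intro h0
    have h2 := congrArg List.length h0
    rw [List.length_drop, List.length_nil] at h2
    unfold len at h h2
    omega
  constructor
  · unfold Ends at hg ⊢
    rw [← getLast_suffix h1 hne, getLast_suffix (List.drop_suffix _ _) hne, hg]
  · have h2 := h1.length_le
    rw [List.length_drop] at h2
    unfold len at h ⊢
    unfold len at h2
    omega

end ExtSolP

open ExtSolP

theorem TaskExtSol_proof : TaskExtSol := by
  intro hA hB n k x S R N hS t v hv hN e he f hf hf0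
  obtain ⟨⟨he1, he2⟩, he3⟩ := he
  have hlen1 : len (1 : G n) = 0 := by simp [len]
  have he0 : e 1 = 0 := he3 1 (by rw [hlen1]; omega)
  have hz : ∀ g, len g ≤ len v → f g = 0 := fun g hg => vanish hB hv hf0 hg
  refine ⟨⟨hz 1 (by rw [hlen1]; omega), ?_⟩, fun g hg => hz g (by omega)⟩
  intro i h
  have hh : ∀ u : G n, u * h = (u * (h * v⁻¹)) * v := by intro u; group
  by_cases hc : Ends t (h * v⁻¹) ∧ R + 1 ≤ len (h * v⁻¹)
  · have h1 := he2 i (h * v⁻¹) hc.1 hc.2
    rw [← h1]
    unfold eqn
    refine Finset.sum_congr rfl fun u hu => ?_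
    have h2 := (ends_mul hA hc.1 (u := u) (by have := hS u hu; omega)).1
    rw [hh u, pot_cone hB hv he0 hf hf0 h2]
  · unfold eqn
    refine Finset.sum_eq_zero fun u hu => ?_
    have hpot : Pot f (u * h) = 0 := by
      by_cases hE : Ends t (u * (h * v⁻¹))
      · rw [hh u, pot_cone hB hv he0 hf hf0 hE]
        by_cases hl : len (u * (h * v⁻¹)) ≤ 2 * R + 2
        · unfold Pot
          apply List.sum_eq_zero
          intro y hy
          obtain ⟨w, hw, rfl⟩ := List.mem_map.1 hy
          have h3 : w <:+ (u * (h * v⁻¹)).toWord := (List.mem_tails _ _).1 hw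
          exact he3 _ (((len_mk_le w).trans h3.length_le).trans hl)
        · exfalso
          apply hc
          have h4 := ends_mul hA hE (u := u⁻¹) (by rw [len_inv]; have := hS u hu; omega)
          rw [inv_mul_cancel_left, len_inv] at h4
          refine ⟨h4.1, ?_⟩
          have := hS u hu
          have := h4.2
          omega
      · apply pot_out hB hv hf0
        rwa [mul_assoc]
    rw [hpot, mul_zero]

end Pool.Agent.H14R3.Aug
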